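import Pool.Agent.W154.OC.Canon

set_option autoImplicit false

namespace Pool.Agent.W154.OC

lemma minK' {n N : ℕ} {g : ℕ → ℕ → ℕ} {y : ℕ → ℕ} (hg : Wt N g) (h : MinKind n g y) {i k j l : ℕ}
    (hi : i < n) (hk : k < n) (hj : j < n) (hl : l < n) (hik : i ≠ k) (hjl : j ≠ l)
    (hm : min i k < min j l) : g (y i) (y k) < g (y j) (y l) := by
  rcases lt_or_gt_of_ne hik with a | a <;> rcases lt_or_gt_of_ne hjl with b | b
  · exact h i k j l a hk b hl (by omega)
  · rw [hg.symm (y j)]; exact h i k l j a hk b hj (by omega)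
  · rw [hg.symm (y i)]; exact h k i j l a hi b hl (by omega)
  · rw [hg.symm (y i), hg.symm (y j)]; exact h k i l j a hi b hj (by omega)

lemma maxK' {n N : ℕ} {g : ℕ → ℕ → ℕ} {y : ℕ → ℕ} (hg : Wt N g) (h : MaxKind n g y) {i k j l : ℕ}
    (hi : i < n) (hk : k < n) (hj : j < n) (hl : l < n) (hik : i ≠ k) (hjl : j ≠ l)
    (hm : max i k < max j l) : g (y i) (y k) < g (y j) (y l) := by
  rcases lt_or_gt_of_ne hik with a | a <;> rcases lt_or_gt_of_ne hjl with b | b
  · exact h i k j l a hk b hl (by omega)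
  · rw [hg.symm (y j)]; exact h i k l j a hk b hj (by omega)
  · rw [hg.symm (y i)]; exact h k i j l a hi b hl (by omega)
  · rw [hg.symm (y i), hg.symm (y j)]; exact h k i l j a hi b hj (by omega)

/-- positions, min-kind -/
def pm (m t : ℕ) : ℕ :=
  if t ≤ m then 2 * t else if t = m + 1 then 2 * m + 1 else if t = m + 2 then 2 * m + 3
  else if t = m + 3 then 2 * m + 4 else if t = m + 4 then 2 * m + 2 else 4 * m + 9 - 2 * t

/-- positions, max-kind, increasing ties -/
def px (m t : ℕ) : ℕ :=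
  if t ≤ m then 2 * t else if t = m + 1 then 2 * m + 3 else if t = m + 2 then 2 * m + 2
  else if t = m + 3 then 2 * m + 4 else 4 * m + 9 - 2 * t

/-- positions, max-kind, decreasing ties -/
def pd (m t : ℕ) : ℕ :=
  if t ≤ m then 2 * t + 1 else if t = m + 1 then 2 * m + 3 else if t = m + 2 then 0
  else if t = m + 3 then 2 * m + 4 else 4 * m + 10 - 2 * t

lemma pm_lt {m t : ℕ} (h : t ≤ 2 * m + 4) : pm m t < 2 * m + 5 := by
  unfold pm; split_ifs <;> omega

lemma px_lt {m t : ℕ} (h : t ≤ 2 * m + 4) : px m t < 2 * m + 5 := by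
  unfold px; split_ifs <;> omega

lemma pd_lt {m t : ℕ} (h : t ≤ 2 * m + 4) : pd m t < 2 * m + 5 := by
  unfold pd; split_ifs <;> omega

lemma pm_inj {m t t' : ℕ} (h : t ≤ 2 * m + 4) (h' : t' ≤ 2 * m + 4) (he : pm m t = pm m t') :
    t = t' := by
  unfold pm at he; split_ifs at he <;> omega

lemma px_inj {m t t' : ℕ} (h : t ≤ 2 * m + 4) (h' : t' ≤ 2 * m + 4) (he : px m t = px m t') :
    t = t' := by
  unfold px at he; split_ifs at he <;> omega

lemma pd_inj {m t t' : ℕ} (h : t ≤ 2 * m + 4) (h' : t' ≤ 2 * m + 4) (he : pd m t = pd m t') :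
    t = t' := by
  unfold pd at he; split_ifs at he <;> omega

lemma pm_min {m t : ℕ} (h : t ≤ 2 * m + 3) : min (pm m t) (pm m (t + 1)) + 1 = lab m t := by
  unfold pm lab; split_ifs <;> omega

/-- value of the maximum -/
def mx (m L : ℕ) : ℕ := if L ≤ 2 * m then L + 1 else if L ≤ 2 * m + 2 then 2 * m + 3 else 2 * m + 4

lemma px_max {m t : ℕ} (h : t ≤ 2 * m + 3) : max (px m t) (px m (t + 1)) = mx m (lab m t) := by
  unfold px lab mx; split_ifs <;> omega

/-- value of the maximum -/
def md (m L : ℕ) : ℕ := if L ≤ 2 * m then L + 2 else if L ≤ 2 * m + 2 then 2 * m + 3 else 2 * m + 4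

lemma pd_max {m t : ℕ} (h : t ≤ 2 * m + 3) : max (pd m t) (pd m (t + 1)) = md m (lab m t) := by
  unfold pd lab md; split_ifs <;> omega

lemma lab_eq1 {m t : ℕ} (h : t ≤ 2 * m + 3) (hl : lab m t = 2 * m + 1) : t = m := by
  unfold lab at hl; split_ifs at hl <;> omega

lemma lab_eq2 {m t : ℕ} (h : t ≤ 2 * m + 3) (hl : lab m t = 2 * m + 2) : t = m + 1 := by
  unfold lab at hl; split_ifs at hl <;> omega

lemma lab_eq3 {m t : ℕ} (h : t ≤ 2 * m + 3) (hl : lab m t = 2 * m + 3) : t = m + 3 := by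
  unfold lab at hl; split_ifs at hl <;> omega

lemma lab_eq4 {m t : ℕ} (h : t ≤ 2 * m + 3) (hl : lab m t = 2 * m + 4) : t = m + 2 := by
  unfold lab at hl; split_ifs at hl <;> omega

lemma lab_le {m t : ℕ} (h : t ≤ 2 * m + 3) : lab m t ≤ 2 * m + 4 := by
  unfold lab; split_ifs <;> omega

lemma lab_tie {m t t' : ℕ} (h : t ≤ 2 * m + 3) (h' : t' ≤ 2 * m + 3) (hl : lab m t < lab m t') :
    (t = m ∧ t' = m + 1) ∨ (t = m + 3 ∧ t' = m + 2) ∨
      (mx m (lab m t) < mx m (lab m t') ∧ md m (lab m t) < md m (lab m t')) := by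
  by_cases h1 : lab m t = 2 * m + 1 ∧ lab m t' = 2 * m + 2
  · exact Or.inl ⟨lab_eq1 h h1.1, lab_eq2 h' h1.2⟩
  · by_cases h2 : lab m t = 2 * m + 3 ∧ lab m t' = 2 * m + 4
    · exact Or.inr (Or.inl ⟨lab_eq3 h h2.1, lab_eq4 h' h2.2⟩)
    · right; right
      have h3 := lab_le h'
      generalize lab m t = L at *
      generalize lab m t' = L' at *
      unfold mx md
      constructor <;> split_ifs <;> omega

/-- the path is contained in every edge-ordered large complete graph -/
theorem exists_path (m : ℕ) : ∃ N : ℕ, ∀ g : ℕ → ℕ → ℕ, Wt N g → ∃ x : ℕ → ℕ,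
    (∀ t, t ≤ 2 * m + 4 → x t < N) ∧
    (∀ t t', t ≤ 2 * m + 4 → t' ≤ 2 * m + 4 → x t = x t' → t = t') ∧
    ∀ t t', t ≤ 2 * m + 3 → t' ≤ 2 * m + 3 → lab m t < lab m t' →
      g (x t) (x (t + 1)) < g (x t') (x (t' + 1)) := by
  obtain ⟨N, hN⟩ := exists_hom (2 * m + 5)
  refine ⟨N, fun g hg => ?_⟩
  obtain ⟨y, s1, s2, s6, hy, hh⟩ := hN g hg
  rcases kinds (by omega) hg hy hh with hk | ⟨hk, ht⟩ | ⟨hk, ht⟩
  · refine ⟨fun t => y (pm m t), fun t h => hy _ (pm_lt h), fun t t' h h' he =>
      pm_inj h h' (hh.inj _ _ (pm_lt h) (pm_lt h') he), fun t t' h h' hl => ?_⟩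
    have a1 := pm_min h
    have a2 := pm_min h'
    have b1 : pm m t ≠ pm m (t + 1) := fun e => by
      have := pm_inj (by omega) (by omega) e; omega
    have b2 : pm m t' ≠ pm m (t' + 1) := fun e => by
      have := pm_inj (by omega) (by omega) e; omega
    exact minK' hg hk (pm_lt (by omega)) (pm_lt (by omega)) (pm_lt (by omega)) (pm_lt (by omega))
      b1 b2 (by omega)
  · refine ⟨fun t => y (px m t), fun t h => hy _ (px_lt h), fun t t' h h' he =>
      px_inj h h' (hh.inj _ _ (px_lt h) (px_lt h') he), fun t t' h h' hl => ?_⟩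
    have b1 : px m t ≠ px m (t + 1) := fun e => by
      have := px_inj (by omega) (by omega) e; omega
    have b2 : px m t' ≠ px m (t' + 1) := fun e => by
      have := px_inj (by omega) (by omega) e; omega
    rcases lab_tie h h' hl with ⟨c1, c2⟩ | ⟨c1, c2⟩ | ⟨h1, _⟩
    · have e1 : px m t = 2 * m := by unfold px; split_ifs <;> omega
      have e2 : px m (t + 1) = 2 * m + 3 := by unfold px; split_ifs <;> omega
      have e3 : px m t' = 2 * m + 3 := by unfold px; split_ifs <;> omega
      have e4 : px m (t' + 1) = 2 * m + 2 := by unfold px; split_ifs <;> omega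
      show g (y (px m t)) (y (px m (t + 1))) < g (y (px m t')) (y (px m (t' + 1)))
      rw [e1, e2, e3, e4, hg.symm (y (2 * m + 3)) (y (2 * m + 2))]
      exact ht _ _ _ (by omega) (by omega) (by omega)
    · have e1 : px m t = 2 * m + 4 := by unfold px; split_ifs <;> omega
      have e2 : px m (t + 1) = 2 * m + 1 := by unfold px; split_ifs <;> omega
      have e3 : px m t' = 2 * m + 2 := by unfold px; split_ifs <;> omega
      have e4 : px m (t' + 1) = 2 * m + 4 := by unfold px; split_ifs <;> omega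
      show g (y (px m t)) (y (px m (t + 1))) < g (y (px m t')) (y (px m (t' + 1)))
      rw [e1, e2, e3, e4, hg.symm (y (2 * m + 4)) (y (2 * m + 1))]
      exact ht _ _ _ (by omega) (by omega) (by omega)
    · rw [← px_max h, ← px_max h'] at h1
      exact maxK' hg hk (px_lt (by omega)) (px_lt (by omega)) (px_lt (by omega)) (px_lt (by omega))
        b1 b2 h1
  · refine ⟨fun t => y (pd m t), fun t h => hy _ (pd_lt h), fun t t' h h' he =>
      pd_inj h h' (hh.inj _ _ (pd_lt h) (pd_lt h') he), fun t t' h h' hl => ?_⟩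
    have b1 : pd m t ≠ pd m (t + 1) := fun e => by
      have := pd_inj (by omega) (by omega) e; omega
    have b2 : pd m t' ≠ pd m (t' + 1) := fun e => by
      have := pd_inj (by omega) (by omega) e; omega
    rcases lab_tie h h' hl with ⟨c1, c2⟩ | ⟨c1, c2⟩ | ⟨_, h1⟩
    · have e1 : pd m t = 2 * m + 1 := by unfold pd; split_ifs <;> omega
      have e2 : pd m (t + 1) = 2 * m + 3 := by unfold pd; split_ifs <;> omega
      have e3 : pd m t' = 2 * m + 3 := by unfold pd; split_ifs <;> omega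
      have e4 : pd m (t' + 1) = 0 := by unfold pd; split_ifs <;> omega
      show g (y (pd m t)) (y (pd m (t + 1))) < g (y (pd m t')) (y (pd m (t' + 1)))
      rw [e1, e2, e3, e4, hg.symm (y (2 * m + 3)) (y 0)]
      exact ht _ _ _ (by omega) (by omega) (by omega)
    · have e1 : pd m t = 2 * m + 4 := by unfold pd; split_ifs <;> omega
      have e2 : pd m (t + 1) = 2 * m + 2 := by unfold pd; split_ifs <;> omega
      have e3 : pd m t' = 0 := by unfold pd; split_ifs <;> omega
      have e4 : pd m (t' + 1) = 2 * m + 4 := by unfold pd; split_ifs <;> omega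
      show g (y (pd m t)) (y (pd m (t + 1))) < g (y (pd m t')) (y (pd m (t' + 1)))
      rw [e1, e2, e3, e4, hg.symm (y (2 * m + 4)) (y (2 * m + 2))]
      exact ht _ _ _ (by omega) (by omega) (by omega)
    · rw [← pd_max h, ← pd_max h'] at h1
      exact maxK' hg hk (pd_lt (by omega)) (pd_lt (by omega)) (pd_lt (by omega)) (pd_lt (by omega))
        b1 b2 h1

end Pool.Agent.W154.OC
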