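import Pool.Agent.W154.OC.Canon

set_option autoImplicit false

namespace Pool.Agent.W154.OC

lemma exJ (a b : ℕ) : ∃ j, a / 2 ^ j = b / 2 ^ j := by
  refine ⟨a + b, ?_⟩
  rw [Nat.div_eq_of_lt, Nat.div_eq_of_lt]
  · exact (Nat.lt_two_pow_self (n := b)).trans_le (Nat.pow_le_pow_right (by norm_num) (by omega))
  · exact (Nat.lt_two_pow_self (n := a)).trans_le (Nat.pow_le_pow_right (by norm_num) (by omega))

/-- the level at which `a` and `b` meet in the binary tree -/
def J (a b : ℕ) : ℕ := Nat.find (exJ a b)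

lemma J_spec (a b : ℕ) : a / 2 ^ J a b = b / 2 ^ J a b := Nat.find_spec (exJ a b)

lemma J_min {a b j : ℕ} (h : j < J a b) : a / 2 ^ j ≠ b / 2 ^ j := Nat.find_min (exJ a b) h

lemma J_symm (a b : ℕ) : J a b = J b a := by
  apply le_antisymm
  · exact Nat.find_min' _ (J_spec b a).symm
  · exact Nat.find_min' _ (J_spec a b).symm

lemma J_pos {a b : ℕ} (h : a ≠ b) : 1 ≤ J a b := by
  by_contra hc
  have h0 : J a b = 0 := by omega
  have := J_spec a b
  rw [h0] at this
  simp at this
  exact h this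

lemma J_le {a b d : ℕ} (ha : a < 2 ^ d) (hb : b < 2 ^ d) : J a b ≤ d := by
  apply Nat.find_min'
  rw [Nat.div_eq_of_lt ha, Nat.div_eq_of_lt hb]

lemma side_aux {a b : ℕ} (h : a ≠ b) : b < a ↔ b / 2 ^ (J a b - 1) = 2 * (b / 2 ^ J a b) := by
  have h1 := J_pos h
  obtain ⟨j, hj⟩ : ∃ j, J a b = j + 1 := ⟨J a b - 1, by omega⟩
  have h2 := J_spec a b
  have h3 := J_min (a := a) (b := b) (j := j) (by omega)
  rw [hj] at h2 ⊢
  rw [Nat.add_sub_cancel]
  rw [pow_succ, ← Nat.div_div_eq_div_mul, ← Nat.div_div_eq_div_mul] at h2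
  rw [pow_succ, ← Nat.div_div_eq_div_mul]
  have h4 : a / 2 ^ j ≤ b / 2 ^ j ∨ b / 2 ^ j ≤ a / 2 ^ j := le_total _ _
  constructor
  · intro h5
    have : b / 2 ^ j ≤ a / 2 ^ j := Nat.div_le_div_right h5.le
    omega
  · intro h5
    by_contra h6
    have : a / 2 ^ j ≤ b / 2 ^ j := Nat.div_le_div_right (by omega)
    omega

lemma J_side {a b c : ℕ} (h1 : a ≠ b) (h2 : b ≠ c) (h : J a b = J b c) : b < a ↔ b < c := by
  rw [side_aux h1, side_aux h2.symm, J_symm c b, h]

variable (n : ℕ) (c : ℕ → ℕ)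

/-- endpoint with the smaller colour -/
def small (a b : ℕ) : ℕ := if c a < c b then a else b

/-- endpoint with the larger colour -/
def big (a b : ℕ) : ℕ := if c a < c b then b else a

/-- the key of an edge -/
def K (a b : ℕ) : ℕ := (J (c a) (c b) * n + small c a b) * n + big c a b

lemma small_lt {n : ℕ} {c : ℕ → ℕ} {a b : ℕ} (ha : a < n) (hb : b < n) : small c a b < n := by
  unfold small; split_ifs <;> assumption

lemma big_lt {n : ℕ} {c : ℕ → ℕ} {a b : ℕ} (ha : a < n) (hb : b < n) : big c a b < n := by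
  unfold big; split_ifs <;> assumption

lemma small_symm {c : ℕ → ℕ} {a b : ℕ} (h : c a ≠ c b) : small c a b = small c b a := by
  unfold small; split_ifs <;> omega

lemma big_symm {c : ℕ → ℕ} {a b : ℕ} (h : c a ≠ c b) : big c a b = big c b a := by
  unfold big; split_ifs <;> omega

lemma K_symm {n : ℕ} {c : ℕ → ℕ} {a b : ℕ} (h : c a ≠ c b) : K n c a b = K n c b a := by
  unfold K; rw [J_symm, small_symm h, big_symm h]

lemma K_div {n : ℕ} {c : ℕ → ℕ} {a b : ℕ} (ha : a < n) (hb : b < n) :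
    K n c a b / n = J (c a) (c b) * n + small c a b := by
  unfold K
  rw [Nat.add_comm, Nat.add_mul_div_right _ _ (by omega : 0 < n), Nat.div_eq_of_lt (big_lt ha hb),
    Nat.zero_add]

lemma K_div_div {n : ℕ} {c : ℕ → ℕ} {a b : ℕ} (ha : a < n) (hb : b < n) :
    K n c a b / n / n = J (c a) (c b) := by
  rw [K_div ha hb]
  rw [Nat.add_comm, Nat.add_mul_div_right _ _ (by omega : 0 < n), Nat.div_eq_of_lt (small_lt ha hb),
    Nat.zero_add]

lemma K_div_mod {n : ℕ} {c : ℕ → ℕ} {a b : ℕ} (ha : a < n) (hb : b < n) :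
    K n c a b / n % n = small c a b := by
  rw [K_div ha hb, Nat.mul_comm, Nat.mul_add_mod, Nat.mod_eq_of_lt (small_lt ha hb)]

lemma K_mod {n : ℕ} {c : ℕ → ℕ} {a b : ℕ} (ha : a < n) (hb : b < n) :
    K n c a b % n = big c a b := by
  unfold K
  rw [Nat.mul_comm, Nat.mul_add_mod, Nat.mod_eq_of_lt (big_lt ha hb)]

/-- the key determines the pair -/
lemma K_inj {n : ℕ} {c : ℕ → ℕ} {a b a' b' : ℕ} (ha : a < n) (hb : b < n) (ha' : a' < n)
    (hb' : b' < n) (h : K n c a b = K n c a' b') : (a = a' ∧ b = b') ∨ (a = b' ∧ b = a') := by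
  have h1 := K_mod (c := c) ha hb
  have h2 := K_mod (c := c) ha' hb'
  have h3 := K_div_mod (c := c) ha hb
  have h4 := K_div_mod (c := c) ha' hb'
  rw [h] at h1 h3
  have h5 : big c a b = big c a' b' := h1.symm.trans h2
  have h6 : small c a b = small c a' b' := h3.symm.trans h4
  unfold small at h6
  unfold big at h5
  split_ifs at h5 h6 <;> omega

/-- the interleaved runs do not fit into the tree ordering -/
theorem no_copy {n d : ℕ} {c x : ℕ → ℕ} (hx : ∀ t, t ≤ 4 * d + 4 → x t < n)
    (hinj : ∀ t t', t ≤ 4 * d + 4 → t' ≤ 4 * d + 4 → x t = x t' → t = t')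
    (hc : ∀ a, c a < 2 ^ d) (hne : ∀ t, t ≤ 4 * d + 3 → c (x t) ≠ c (x (t + 1)))
    (hK : ∀ t t', t ≤ 4 * d + 3 → t' ≤ 4 * d + 3 → lab (2 * d) t < lab (2 * d) t' →
      K n c (x t) (x (t + 1)) < K n c (x t') (x (t' + 1))) : False := by
  set jj : ℕ → ℕ := fun t => J (c (x t)) (c (x (t + 1))) with hjj
  have hlab1 : ∀ t, t ≤ 2 * d → lab (2 * d) t = 2 * t + 1 := by
    intro t ht; unfold lab; rw [if_pos ht]
  have hlab2 : ∀ t, t + 1 ≤ 2 * d → lab (2 * d) (4 * d + 3 - t) = 2 * t + 2 := by
    intro t ht; unfold lab; split_ifs <;> omega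
  have hx' : ∀ t, t ≤ 4 * d + 4 → x t < n := hx
  -- levels increase
  have hmono : ∀ t, t + 1 ≤ 2 * d → jj t ≤ jj (t + 1) := by
    intro t ht
    have h1 := hK t (t + 1) (by omega) (by omega) (by rw [hlab1 t (by omega), hlab1 (t + 1) ht]; omega)
    have h2 := Nat.div_le_div_right (c := n) (Nat.div_le_div_right (c := n) h1.le)
    rw [K_div_div (hx _ (by omega)) (hx _ (by omega)), K_div_div (hx _ (by omega)) (hx _ (by omega))] at h2
    exact h2
  -- a vertex cannot be the small endpoint of both its edges at the same level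
  have hclose : ∀ t, t + 1 ≤ 2 * d → jj t = jj (t + 1) → c (x (t + 1)) < c (x t) →
      c (x (t + 1)) < c (x (t + 2)) → False := by
    intro t ht hj h1 h2
    have e1 : small c (x t) (x (t + 1)) = x (t + 1) := by unfold small; rw [if_neg (by omega)]
    have e2 : small c (x (t + 1)) (x (t + 1 + 1)) = x (t + 1) := by
      unfold small; rw [if_pos h2]
    have k1 := hK t (4 * d + 3 - t) (by omega) (by omega) (by
      rw [hlab1 t (by omega), hlab2 t ht]; omega)
    have k2 := hK (4 * d + 3 - t) (t + 1) (by omega) (by omega) (by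
      rw [hlab1 (t + 1) ht, hlab2 t ht]; omega)
    have d1 := Nat.div_le_div_right (c := n) k1.le
    have d2 := Nat.div_le_div_right (c := n) k2.le
    rw [K_div (a := x t) (hx _ (by omega)) (hx _ (by omega)), e1] at d1
    rw [K_div (a := x (t + 1)) (hx _ (by omega)) (hx _ (by omega)), e2] at d2
    have d3 : J (c (x t)) (c (x (t + 1))) = J (c (x (t + 1))) (c (x (t + 1 + 1))) := hj
    rw [← d3] at d2
    have d4 : K n c (x (4 * d + 3 - t)) (x (4 * d + 3 - t + 1)) / n =
        J (c (x t)) (c (x (t + 1))) * n + x (t + 1) := le_antisymm d2 d1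
    have d5 := K_div_mod (n := n) (c := c) (hx (4 * d + 3 - t) (by omega)) (hx (4 * d + 3 - t + 1) (by omega))
    rw [d4, Nat.mul_comm, Nat.mul_add_mod, Nat.mod_eq_of_lt (hx (t + 1) (by omega))] at d5
    unfold small at d5
    split_ifs at d5
    · have := hinj _ _ (by omega) (by omega) d5
      omega
    · have := hinj _ _ (by omega) (by omega) d5
      omega
  -- no three consecutive edges on one level
  have hstep : ∀ t, t + 2 ≤ 2 * d → jj t + 1 ≤ jj (t + 2) := by
    intro t ht
    have m1 := hmono t (by omega)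
    have m2 : jj (t + 1) ≤ jj (t + 2) := hmono (t + 1) (by omega)
    by_contra hcon
    have q1 : jj t = jj (t + 1) := by omega
    have q2 : jj (t + 1) = jj (t + 2) := by omega
    have n1 := hne t (by omega)
    have n2 := hne (t + 1) (by omega)
    have n3 := hne (t + 2) (by omega)
    have s1 := J_side n1 n2 q1
    have s2 := J_side n2 n3 q2
    rcases lt_or_gt_of_ne n1 with h | h
    · -- c (x t) < c (x (t+1))
      have h2 : c (x (t + 1 + 1)) < c (x (t + 1)) := by
        rcases lt_or_gt_of_ne n2 with h3 | h3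
        · have := s1.2 h3; omega
        · exact h3
      exact hclose (t + 1) (by omega) q2 h2 (s2.1 h2)
    · exact hclose t (by omega) q1 h (s1.1 h)
  have hall : ∀ s, s ≤ d → s + 1 ≤ jj (2 * s) := by
    intro s
    induction s with
    | zero =>
      intro _
      exact J_pos (hne 0 (by omega))
    | succ s ih =>
      intro hs
      have h1 := ih (by omega)
      have h2 := hstep (2 * s) (by omega)
      have h3 : 2 * (s + 1) = 2 * s + 2 := by ring
      rw [h3]
      omega
  have h1 := hall d le_rfl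
  have h2 : jj (2 * d) ≤ d := J_le (hc _) (hc _)
  omega

end Pool.Agent.W154.OC
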