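import Pool.Agent.H507R3.RamAll

set_option autoImplicit false

namespace Pool.Agent.W154.OC

/-- labels of the edges `{t, t+1}` of the path on `2m+5` vertices -/
def lab (m t : ℕ) : ℕ :=
  if t ≤ m then 2 * t + 1 else if t = m + 1 then 2 * m + 2 else if t = m + 2 then 2 * m + 4
  else if t = m + 3 then 2 * m + 3 else 4 * m + 8 - 2 * t

lemma lab_inj {m t t' : ℕ} (h : t ≤ 2 * m + 3) (h' : t' ≤ 2 * m + 3) (he : lab m t = lab m t') :
    t = t' := by
  unfold lab at he
  split_ifs at he <;> omega

/-- symmetric edge weights, different on different pairs below `N` -/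
structure Wt (N : ℕ) (g : ℕ → ℕ → ℕ) : Prop where
  symm : ∀ a b, g a b = g b a
  inj : ∀ a b c d, a < b → b < N → c < d → d < N → g a b = g c d → a = c ∧ b = d

/-- homogeneous sequence -/
structure Hom (n : ℕ) (g : ℕ → ℕ → ℕ) (y : ℕ → ℕ) (s1 s2 s6 : Prop) : Prop where
  inj : ∀ i j, i < n → j < n → y i = y j → i = j
  h3 : ∀ i j k, i < j → j < k → k < n → g (y i) (y j) < g (y j) (y k)
  h1 : ∀ i j k, i < j → j < k → k < n → (g (y i) (y j) < g (y i) (y k) ↔ s1)
  h2 : ∀ i j k, i < j → j < k → k < n → (g (y i) (y k) < g (y j) (y k) ↔ s2)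
  h6 : ∀ i j k l, i < j → j < k → k < l → l < n → (g (y i) (y l) < g (y j) (y k) ↔ s6)

/-- min-kind -/
def MinKind (n : ℕ) (g : ℕ → ℕ → ℕ) (y : ℕ → ℕ) : Prop :=
  ∀ i k j l, i < k → k < n → j < l → l < n → i < j → g (y i) (y k) < g (y j) (y l)

/-- max-kind -/
def MaxKind (n : ℕ) (g : ℕ → ℕ → ℕ) (y : ℕ → ℕ) : Prop :=
  ∀ i k j l, i < k → k < n → j < l → l < n → k < l → g (y i) (y k) < g (y j) (y l)

theorem kinds {n N : ℕ} {g : ℕ → ℕ → ℕ} {y : ℕ → ℕ} {s1 s2 s6 : Prop} (hn : 3 ≤ n)
    (hg : Wt N g) (hy : ∀ i, i < n → y i < N) (h : Hom n g y s1 s2 s6) :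
    MinKind n g y ∨
    (MaxKind n g y ∧ ∀ i j k, i < j → j < k → k < n → g (y i) (y k) < g (y j) (y k)) ∨
    (MaxKind n g y ∧ ∀ i j k, i < j → j < k → k < n → g (y j) (y k) < g (y i) (y k)) := by
  -- different pairs have different weights
  have hne : ∀ i k j l, i < k → k < n → j < l → l < n → (i ≠ j ∨ k ≠ l) →
      g (y i) (y k) ≠ g (y j) (y l) := by
    intro i k j l hik hk hjl hl hd he
    have h0 : ∀ a b, a < n → b < n → a ≠ b → y a ≠ y b := fun a b ha hb hab hh =>
      hab (h.inj a b ha hb hh)
    have a1 := hy i (by omega)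
    have a2 := hy k hk
    have a3 := hy j (by omega)
    have a4 := hy l hl
    have b1 := h0 i k (by omega) hk (by omega)
    have b2 := h0 j l (by omega) hl (by omega)
    have key : (y i = y j ∧ y k = y l) ∨ (y i = y l ∧ y k = y j) := by
      rcases lt_or_gt_of_ne b1 with c1 | c1 <;> rcases lt_or_gt_of_ne b2 with c2 | c2
      · exact Or.inl (hg.inj _ _ _ _ c1 a2 c2 a4 he)
      · rw [hg.symm (y j)] at he
        exact Or.inr (hg.inj _ _ _ _ c1 a2 c2 a3 he)
      · rw [hg.symm (y i)] at he
        have := hg.inj _ _ _ _ c1 a1 c2 a4 he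
        exact Or.inr ⟨this.2, this.1⟩
      · rw [hg.symm (y i), hg.symm (y j)] at he
        have := hg.inj _ _ _ _ c1 a1 c2 a3 he
        exact Or.inl ⟨this.2, this.1⟩
    rcases key with ⟨e1, e2⟩ | ⟨e1, e2⟩
    · have := h.inj i j (by omega) (by omega) e1
      have := h.inj k l hk hl e2
      omega
    · have := h.inj i l (by omega) hl e1
      have := h.inj k j hk (by omega) e2
      omega
  have h1' : ¬ s1 → ∀ i j k, i < j → j < k → k < n → g (y i) (y k) < g (y i) (y j) := by
    intro hs i j k hij hjk hk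
    have := (h.h1 i j k hij hjk hk).not.2 hs
    have := hne i k i j (by omega) hk hij (by omega) (Or.inr (by omega))
    omega
  have h2' : ¬ s2 → ∀ i j k, i < j → j < k → k < n → g (y j) (y k) < g (y i) (y k) := by
    intro hs i j k hij hjk hk
    have := (h.h2 i j k hij hjk hk).not.2 hs
    have := hne i k j k (by omega) hk hjk hk (Or.inl (by omega))
    omega
  by_cases g1 : s1
  · by_cases g2 : s2
    · by_cases g6 : s6
      · left
        intro i k j l hik hk hjl hl hij
        rcases lt_trichotomy k j with e | e | e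
        · exact (h.h3 i k j hik e (by omega)).trans (h.h3 k j l e hjl hl)
        · subst e; exact h.h3 i k l hik hjl hl
        · rcases lt_trichotomy k l with e' | e' | e'
          · exact ((h.h2 i j k hij e hk).2 g2).trans ((h.h1 j k l e e' hl).2 g1)
          · subst e'; exact (h.h2 i j k hij e hk).2 g2
          · exact (h.h6 i j l k hij hjl e' hk).2 g6
      · right; left
        refine ⟨?_, fun i j k hij hjk hk => (h.h2 i j k hij hjk hk).2 g2⟩
        intro i k j l hik hk hjl hl hkl
        rcases lt_trichotomy k j with e | e | e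
        · exact (h.h3 i k j hik e (by omega)).trans (h.h3 k j l e hjl hl)
        · subst e; exact h.h3 i k l hik hjl hl
        · rcases lt_trichotomy i j with e' | e' | e'
          · exact ((h.h2 i j k e' e hk).2 g2).trans ((h.h1 j k l e hkl hl).2 g1)
          · subst e'; exact (h.h1 i k l hik hkl hl).2 g1
          · have := (h.h6 j i k l e' hik hkl hl).not.2 g6
            have := hne j l i k (by omega) hl hik hk (Or.inl (by omega))
            omega
    · right; right
      refine ⟨?_, h2' g2⟩
      intro i k j l hik hk hjl hl hkl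
      rcases lt_trichotomy k j with e | e | e
      · exact (h.h3 i k j hik e (by omega)).trans (h.h3 k j l e hjl hl)
      · subst e; exact h.h3 i k l hik hjl hl
      · exact (h.h3 i k l hik hkl hl).trans (h2' g2 j k l e hkl hl)
  · by_cases g2 : s2
    · left
      intro i k j l hik hk hjl hl hij
      rcases lt_trichotomy k j with e | e | e
      · exact (h.h3 i k j hik e (by omega)).trans (h.h3 k j l e hjl hl)
      · subst e; exact h.h3 i k l hik hjl hl
      · exact (h1' g1 i j k hij e hk).trans (h.h3 i j l hij hjl hl)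
    · exfalso
      have a1 := h1' g1 0 1 2 (by omega) (by omega) (by omega)
      have a2 := h2' g2 0 1 2 (by omega) (by omega) (by omega)
      have a3 := h.h3 0 1 2 (by omega) (by omega) (by omega)
      omega

/-- homogeneous sequences exist -/
theorem exists_hom (n : ℕ) : ∃ N : ℕ, ∀ g : ℕ → ℕ → ℕ, Wt N g →
    ∃ (y : ℕ → ℕ) (s1 s2 s6 : Prop), (∀ i, i < n → y i < N) ∧ Hom n g y s1 s2 s6 := by
  classical
  obtain ⟨N, hN⟩ := Pool.Agent.H507R3.RamAll.ramsey_gen (Bool × Bool × Bool × Bool) 4 (n + 4)
  refine ⟨N, fun g hg => ?_⟩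
  set col : List ℕ → Bool × Bool × Bool × Bool := fun l =>
    (decide (g (l.getD 0 0) (l.getD 1 0) < g (l.getD 0 0) (l.getD 2 0)),
     decide (g (l.getD 0 0) (l.getD 2 0) < g (l.getD 1 0) (l.getD 2 0)),
     decide (g (l.getD 0 0) (l.getD 1 0) < g (l.getD 1 0) (l.getD 2 0)),
     decide (g (l.getD 0 0) (l.getD 3 0) < g (l.getD 1 0) (l.getD 2 0))) with hcol
  obtain ⟨T, hT, hTc, ⟨k1, k2, k3, k6⟩, hk⟩ := hN (Finset.range N) col (by simp)
  -- the elements of `T` in increasing order
  set z : ℕ → ℕ := fun i => (T.sort (· ≤ ·)).getD i 0 with hz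
  have hlen : (T.sort (· ≤ ·)).length = n + 4 := by rw [Finset.length_sort, hTc]
  have hzT : ∀ i, i < n + 4 → z i ∈ T := by
    intro i hi
    rw [hz]
    simp only
    rw [List.getD_eq_getElem _ _ (by rw [hlen]; exact hi)]
    exact (Finset.mem_sort _).1 (List.getElem_mem _)
  have hzlt : ∀ i j, i < j → j < n + 4 → z i < z j := by
    intro i j hij hj
    rw [hz]
    simp only
    rw [List.getD_eq_getElem _ _ (by rw [hlen]; omega), List.getD_eq_getElem _ _ (by rw [hlen]; exact hj)]
    exact (Finset.sortedLT_sort T).pairwise.rel_get_of_lt (a := ⟨i, by rw [hlen]; omega⟩)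
      (b := ⟨j, by rw [hlen]; exact hj⟩) hij
  have hzN : ∀ i, i < n + 4 → z i < N := fun i hi => Finset.mem_range.1 (hT (hzT i hi))
  have h4 : ∀ a b c d, a < b → b < c → c < d → d < n + 4 →
      ((g (z a) (z b) < g (z a) (z c) ↔ k1 = true) ∧ (g (z a) (z c) < g (z b) (z c) ↔ k2 = true) ∧
      (g (z a) (z b) < g (z b) (z c) ↔ k3 = true) ∧ (g (z a) (z d) < g (z b) (z c) ↔ k6 = true)) := by
    intro a b c d hab hbc hcd hd
    have h5 := hk [z a, z b, z c, z d] rfl (by
      simp only [List.pairwise_cons, List.mem_cons, List.not_mem_nil, or_false,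
        forall_eq_or_imp, forall_eq, List.Pairwise.nil, and_true, false_imp_iff, implies_true]
      exact ⟨⟨hzlt _ _ hab (by omega), hzlt _ _ (by omega) (by omega), hzlt _ _ (by omega) hd⟩,
        ⟨hzlt _ _ hbc (by omega), hzlt _ _ (by omega) hd⟩, hzlt _ _ hcd hd⟩) (by
      intro x hx
      simp only [List.mem_cons, List.not_mem_nil, or_false] at hx
      rcases hx with rfl | rfl | rfl | rfl
      · exact hzT _ (by omega)
      · exact hzT _ (by omega)
      · exact hzT _ (by omega)
      · exact hzT _ (by omega))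
    rw [hcol] at h5
    simp only [Prod.mk.injEq] at h5
    obtain ⟨e1, e2, e3, e4⟩ := h5
    simp only [List.getD_cons_zero, List.getD_cons_succ] at e1 e2 e3 e4
    refine ⟨?_, ?_, ?_, ?_⟩
    · rw [← e1]; simp
    · rw [← e2]; simp
    · rw [← e3]; simp
    · rw [← e4]; simp
  by_cases h3 : k3 = true
  · refine ⟨z, k1 = true, k2 = true, k6 = true, fun i hi => hzN i (by omega), ⟨?_, ?_, ?_, ?_, ?_⟩⟩
    · intro i j hi hj he
      rcases lt_trichotomy i j with e | e | e
      · have := hzlt i j e (by omega); omega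
      · exact e
      · have := hzlt j i e (by omega); omega
    · intro i j k hij hjk hk'
      exact (h4 i j k (n + 3) hij hjk (by omega) (by omega)).2.2.1.2 h3
    · intro i j k hij hjk hk'
      exact (h4 i j k (n + 3) hij hjk (by omega) (by omega)).1
    · intro i j k hij hjk hk'
      exact (h4 i j k (n + 3) hij hjk (by omega) (by omega)).2.1
    · intro i j k l hij hjk hkl hl
      exact (h4 i j k l hij hjk hkl (by omega)).2.2.2
  · -- reverse
    have hne : ∀ i k j l, i < k → k < n + 4 → j < l → l < n + 4 → (i ≠ j ∨ k ≠ l) →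
        g (z i) (z k) ≠ g (z j) (z l) := by
      intro i k j l hik hk' hjl hl hd he
      obtain ⟨e1, e2⟩ := hg.inj _ _ _ _ (hzlt i k hik hk') (hzN k hk') (hzlt j l hjl hl) (hzN l hl) he
      rcases hd with hd | hd
      · rcases lt_or_gt_of_ne hd with e | e
        · have := hzlt i j e (by omega); omega
        · have := hzlt j i e (by omega); omega
      · rcases lt_or_gt_of_ne hd with e | e
        · have := hzlt k l e (by omega); omega
        · have := hzlt l k e (by omega); omega
    refine ⟨fun i => z (n - 1 - i), ¬ k2 = true, ¬ k1 = true, k6 = true,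
      fun i hi => hzN _ (by omega), ⟨?_, ?_, ?_, ?_, ?_⟩⟩
    · intro i j hi hj he
      rcases lt_trichotomy (n - 1 - i) (n - 1 - j) with e | e | e
      · have := hzlt _ _ e (by omega); omega
      · omega
      · have := hzlt _ _ e (by omega); omega
    · intro i j k hij hjk hk'
      have h5 := (h4 (n - 1 - k) (n - 1 - j) (n - 1 - i) (n + 3) (by omega) (by omega) (by omega)
        (by omega)).2.2.1.not.2 h3
      have h6 := hne (n - 1 - k) (n - 1 - j) (n - 1 - j) (n - 1 - i) (by omega) (by omega)
        (by omega) (by omega) (Or.inl (by omega))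
      rw [hg.symm (z (n - 1 - i)), hg.symm (z (n - 1 - j)) (z (n - 1 - k))]
      omega
    · intro i j k hij hjk hk'
      have h5 := (h4 (n - 1 - k) (n - 1 - j) (n - 1 - i) (n + 3) (by omega) (by omega) (by omega)
        (by omega)).2.1
      have h6 := hne (n - 1 - k) (n - 1 - i) (n - 1 - j) (n - 1 - i) (by omega) (by omega)
        (by omega) (by omega) (Or.inl (by omega))
      rw [hg.symm (z (n - 1 - i)), hg.symm (z (n - 1 - i)) (z (n - 1 - k)), ← h5]
      omega
    · intro i j k hij hjk hk'
      have h5 := (h4 (n - 1 - k) (n - 1 - j) (n - 1 - i) (n + 3) (by omega) (by omega) (by omega)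
        (by omega)).1
      have h6 := hne (n - 1 - k) (n - 1 - i) (n - 1 - k) (n - 1 - j) (by omega) (by omega)
        (by omega) (by omega) (Or.inr (by omega))
      rw [hg.symm (z (n - 1 - i)), hg.symm (z (n - 1 - j)) (z (n - 1 - k)), ← h5]
      omega
    · intro i j k l hij hjk hkl hl
      have h5 := (h4 (n - 1 - l) (n - 1 - k) (n - 1 - j) (n - 1 - i) (by omega) (by omega) (by omega)
        (by omega)).2.2.2
      rw [hg.symm (z (n - 1 - i)), hg.symm (z (n - 1 - j)), ← h5]

end Pool.Agent.W154.OC
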